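import Pool.Agent.helper70.KU.Alg

/-! Module ABS: `|P_n(e^{-τ+iθ})| = P_n(e^{-τ}) e^{-E}`. -/

namespace C048

open Finset

/-- `∏_{i≤n} e^{F i} (∏_{n<i≤2n} e^{F i})² = e^{D F} ∏_{3n<i≤6n} e^{F i}` -/
theorem prod_exp_D (n : ℕ) (F : ℕ → ℝ) :
    (∏ i ∈ Icc 1 n, Real.exp (F i)) * (∏ i ∈ Ioc n (2 * n), Real.exp (F i)) ^ 2
      = Real.exp (D n F) * ∏ i ∈ Ioc (3 * n) (6 * n), Real.exp (F i) := by
  rw [← Real.exp_sum, ← Real.exp_sum, ← Real.exp_sum, ← Real.exp_nat_mul, ← Real.exp_add,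
    ← Real.exp_add]
  congr 1
  simp only [D, Nat.cast_ofNat]
  ring

theorem norm_one_sub_sq (t x : ℝ) :
    ‖1 - Complex.exp (-(t : ℂ) + x * Complex.I)‖ ^ 2
      = (1 - Real.exp (-t)) ^ 2 + 4 * Real.exp (-t) * Real.sin (x / 2) ^ 2 := by
  have h1 : Complex.exp (-(t : ℂ) + x * Complex.I)
      = (Real.exp (-t) : ℂ) * (Complex.cos x + Complex.sin x * Complex.I) := by
    rw [Complex.exp_add, Complex.exp_mul_I, Complex.ofReal_exp, Complex.ofReal_neg]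
  rw [h1, ← Complex.normSq_eq_norm_sq, Complex.normSq_apply]
  have hc : Real.cos x = 1 - 2 * Real.sin (x / 2) ^ 2 := by
    have := Real.cos_two_mul (x / 2)
    have h2 := Real.sin_sq_add_cos_sq (x / 2)
    rw [show 2 * (x / 2) = x by ring] at this
    linarith
  have hs := Real.sin_sq_add_cos_sq x
  clear h1
  generalize Real.exp (-t) = e
  have e1 : (1 - (e : ℂ) * (Complex.cos x + Complex.sin x * Complex.I)).re
      = 1 - e * Real.cos x := by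
    simp [← Complex.ofReal_cos, ← Complex.ofReal_sin]
  have e2 : (1 - (e : ℂ) * (Complex.cos x + Complex.sin x * Complex.I)).im
      = - (e * Real.sin x) := by
    simp [← Complex.ofReal_cos, ← Complex.ofReal_sin]
  rw [e1, e2]
  have : Real.sin x ^ 2 = 1 - Real.cos x ^ 2 := by linarith
  calc (1 - e * Real.cos x) * (1 - e * Real.cos x) + -(e * Real.sin x) * -(e * Real.sin x)
      = 1 - 2 * e * Real.cos x + e ^ 2 * Real.cos x ^ 2 + e ^ 2 * Real.sin x ^ 2 := by ring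
    _ = (1 - e) ^ 2 + 4 * e * Real.sin (x / 2) ^ 2 := by
      rw [this, hc]; ring

/-- `‖1 - z^i‖ = (1 - e^{-iτ}) e^{fE τ θ i}`, `z = e^{-τ+iθ}`. -/
theorem norm_one_sub_pow {τ : ℝ} (hτ : 0 < τ) (θ : ℝ) (i : ℕ) (hi : 1 ≤ i) :
    ‖1 - Complex.exp (-(τ : ℂ) + θ * Complex.I) ^ i‖
      = (1 - Real.exp (-τ) ^ i) * Real.exp (fE τ θ i) := by
  have hi' : (0 : ℝ) < i := by exact_mod_cast hi
  have hit : 0 < (i : ℝ) * τ := mul_pos hi' hτ
  have h1 : Complex.exp (-(τ : ℂ) + θ * Complex.I) ^ i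
      = Complex.exp (-((i * τ : ℝ) : ℂ) + ((i * θ : ℝ) : ℂ) * Complex.I) := by
    rw [← Complex.exp_nat_mul]; push_cast; ring_nf
  have h2 : Real.exp (-τ) ^ i = Real.exp (-(i * τ)) := by
    rw [← Real.exp_nat_mul]; ring_nf
  have hpos : 0 < 1 - Real.exp (-(i * τ)) := by
    have : Real.exp (-(i * τ)) < 1 := by rw [Real.exp_lt_one_iff]; linarith
    linarith
  rw [h1, h2]
  have hsinh : 0 < Real.sinh (i * τ / 2) := Real.sinh_pos_iff.2 (by linarith)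
  have harg : 0 < 1 + Real.sin (i * θ / 2) ^ 2 / Real.sinh (i * τ / 2) ^ 2 := by positivity
  have h3 : ‖1 - Complex.exp (-((i * τ : ℝ) : ℂ) + ((i * θ : ℝ) : ℂ) * Complex.I)‖ ^ 2
      = ((1 - Real.exp (-(i * τ))) * Real.exp (fE τ θ i)) ^ 2 := by
    rw [norm_one_sub_sq, mul_pow, ← Real.exp_nat_mul]
    have : ((2 : ℕ) : ℝ) * fE τ θ i
        = Real.log (1 + Real.sin (i * θ / 2) ^ 2 / Real.sinh (i * τ / 2) ^ 2) := by
      rw [fE]; push_cast; ring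
    rw [this, Real.exp_log harg]
    have h4 : (1 - Real.exp (-(i * τ))) ^ 2 = 4 * Real.exp (-(i * τ)) * Real.sinh (i * τ / 2) ^ 2 := by
      rw [Real.sinh_eq]
      have e1 : Real.exp (-(i * τ)) = Real.exp (-(i * τ / 2)) ^ 2 := by
        rw [← Real.exp_nat_mul]; ring_nf
      have e2 : Real.exp (i * τ / 2) * Real.exp (-(i * τ / 2)) = 1 := by
        rw [← Real.exp_add]; simp
      rw [e1]
      generalize Real.exp (i * τ / 2) = u at *
      generalize Real.exp (-(i * τ / 2)) = v at *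
      have : (1 - v ^ 2) ^ 2 = (u * v - v ^ 2) ^ 2 := by rw [e2]
      rw [this]; ring
    rw [h4]
    field_simp
  have h5 := (sq_eq_sq₀ (norm_nonneg _) (mul_pos hpos (Real.exp_pos _)).le).1 h3
  exact h5

theorem Pr_ofReal (n : ℕ) (r : ℝ) : Pz n (r : ℂ) = (Pr n r : ℂ) := by
  simp [Pz, Pr]

theorem Pr_pos (n : ℕ) {r : ℝ} (hr : 0 < r) : 0 < Pr n r := by
  unfold Pr
  have h0 : 0 < (a n 0 : ℝ) * r ^ 0 := by simp [a_zero]
  refine lt_of_lt_of_le h0 (Finset.single_le_sum (f := fun k => (a n k : ℝ) * r ^ k) ?_ ?_)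
  · intro k _; positivity
  · simp

/-- the real form of `Pz_identity` -/
theorem Pr_identity (n : ℕ) (r : ℝ) :
    Pr n r * ((∏ i ∈ Icc 1 n, (1 - r ^ i)) * (∏ i ∈ Ioc n (2 * n), (1 - r ^ i)) ^ 2)
      = ∏ i ∈ Ioc (3 * n) (6 * n), (1 - r ^ i) := by
  have h := Pz_identity n (r : ℂ)
  rw [Pr_ofReal] at h
  exact_mod_cast h

/-- ABS -/
theorem abs_formula (n : ℕ) (hn : 1 ≤ n) {τ : ℝ} (hτ : 0 < τ) (θ : ℝ) :
    ‖Pz n (Complex.exp (-(τ : ℂ) + θ * Complex.I))‖ = Pr n (Real.exp (-τ)) * Real.exp (-(E n τ θ)) := by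
  set z := Complex.exp (-(τ : ℂ) + θ * Complex.I) with hz
  set r := Real.exp (-τ) with hr
  have hr0 : 0 < r := Real.exp_pos _
  have hr1 : r < 1 := by rw [hr, Real.exp_lt_one_iff]; linarith
  have h := congrArg norm (Pz_identity n z)
  rw [norm_mul, norm_mul, norm_pow, norm_prod, norm_prod, norm_prod] at h
  have c1 : ∏ i ∈ Icc 1 n, ‖1 - z ^ i‖
      = (∏ i ∈ Icc 1 n, (1 - r ^ i)) * ∏ i ∈ Icc 1 n, Real.exp (fE τ θ i) := by
    rw [← Finset.prod_mul_distrib]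
    refine Finset.prod_congr rfl fun i hi => norm_one_sub_pow hτ θ i (Finset.mem_Icc.1 hi).1
  have c2 : ∏ i ∈ Ioc n (2 * n), ‖1 - z ^ i‖
      = (∏ i ∈ Ioc n (2 * n), (1 - r ^ i)) * ∏ i ∈ Ioc n (2 * n), Real.exp (fE τ θ i) := by
    rw [← Finset.prod_mul_distrib]
    refine Finset.prod_congr rfl fun i hi => norm_one_sub_pow hτ θ i ?_
    have := (Finset.mem_Ioc.1 hi).1; omega
  have c3 : ∏ i ∈ Ioc (3 * n) (6 * n), ‖1 - z ^ i‖
      = (∏ i ∈ Ioc (3 * n) (6 * n), (1 - r ^ i)) * ∏ i ∈ Ioc (3 * n) (6 * n), Real.exp (fE τ θ i) := by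
    rw [← Finset.prod_mul_distrib]
    refine Finset.prod_congr rfl fun i hi => norm_one_sub_pow hτ θ i ?_
    have := (Finset.mem_Ioc.1 hi).1; omega
  have h2 := Pr_identity n r
  have h3 := prod_exp_D n (fE τ θ)
  rw [c1, c2, c3, ← h2] at h
  have hp : ∀ s : Finset ℕ, (∀ i ∈ s, 1 ≤ i) → 0 < ∏ i ∈ s, (1 - r ^ i) := by
    intro s hs
    refine Finset.prod_pos fun i hi => ?_
    have : r ^ i < 1 := pow_lt_one₀ hr0.le hr1 (by have := hs i hi; omega)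
    linarith
  have p1 := hp (Icc 1 n) (fun i hi => (Finset.mem_Icc.1 hi).1)
  have p2 := hp (Ioc n (2 * n)) (fun i hi => by have := (Finset.mem_Ioc.1 hi).1; omega)
  have p3 : 0 < ∏ i ∈ Ioc (3 * n) (6 * n), Real.exp (fE τ θ i) :=
    Finset.prod_pos fun i _ => Real.exp_pos _
  generalize (∏ i ∈ Icc 1 n, (1 - r ^ i)) = A1 at *
  generalize (∏ i ∈ Ioc n (2 * n), (1 - r ^ i)) = A2 at *
  generalize (∏ i ∈ Icc 1 n, Real.exp (fE τ θ i)) = B1 at *
  generalize (∏ i ∈ Ioc n (2 * n), Real.exp (fE τ θ i)) = B2 at *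
  generalize (∏ i ∈ Ioc (3 * n) (6 * n), Real.exp (fE τ θ i)) = B3 at *
  rw [show A1 * B1 * (A2 * B2) ^ 2 = A1 * A2 ^ 2 * (B1 * B2 ^ 2) by ring, h3] at h
  have h4 : ‖Pz n z‖ * Real.exp (D n (fE τ θ)) * (A1 * A2 ^ 2 * B3)
      = Pr n r * (A1 * A2 ^ 2 * B3) := by
    linear_combination h
  have h5 := mul_right_cancel₀ (by positivity) h4
  rw [← h5, E, mul_assoc, ← Real.exp_add, add_neg_cancel, Real.exp_zero, mul_one]

end C048
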