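import Pool.Agent.helper53.KU.ABS
import Pool.Agent.helper70.KU.DB

/-! Module MV12: mean and variance of the tilted law. -/

namespace C048

open Finset

theorem hasDerivAt_D (n : ℕ) (F : ℕ → ℝ → ℝ) (F' : ℕ → ℝ) (τ : ℝ)
    (h : ∀ i, 1 ≤ i → HasDerivAt (F i) (F' i) τ) :
    HasDerivAt (fun t => D n (fun i => F i t)) (D n F') τ := by
  unfold D
  refine HasDerivAt.sub (HasDerivAt.add ?_ (HasDerivAt.const_mul _ ?_)) ?_
  · exact HasDerivAt.fun_sum fun i hi => h i (Finset.mem_Icc.1 hi).1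
  · exact HasDerivAt.fun_sum fun i hi => h i (by have := (Finset.mem_Ioc.1 hi).1; omega)
  · exact HasDerivAt.fun_sum fun i hi => h i (by have := (Finset.mem_Ioc.1 hi).1; omega)

/-- `log P_n(e^{-τ}) = - D(log(1 - e^{-iτ}))` -/
theorem log_Pr (n : ℕ) {τ : ℝ} (hτ : 0 < τ) :
    Real.log (Pr n (Real.exp (-τ))) = - D n (fun i => Real.log (1 - Real.exp (-(i * τ)))) := by
  have hr1 : Real.exp (-τ) < 1 := by rw [Real.exp_lt_one_iff]; linarith
  have hpow : ∀ i : ℕ, Real.exp (-τ) ^ i = Real.exp (-(i * τ)) := by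
    intro i; rw [← Real.exp_nat_mul]; ring_nf
  have hp : ∀ i : ℕ, 1 ≤ i → 0 < 1 - Real.exp (-τ) ^ i := by
    intro i hi
    have : Real.exp (-τ) ^ i < 1 := pow_lt_one₀ (Real.exp_pos _).le hr1 (by omega)
    linarith
  have h := congrArg Real.log (Pr_identity n (Real.exp (-τ)))
  have hs : ∀ s : Finset ℕ, (∀ i ∈ s, 1 ≤ i) →
      Real.log (∏ i ∈ s, (1 - Real.exp (-τ) ^ i)) = ∑ i ∈ s, Real.log (1 - Real.exp (-(i * τ))) := by
    intro s hs
    rw [Real.log_prod (fun i hi => (hp i (hs i hi)).ne')]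
    refine Finset.sum_congr rfl fun i _ => by rw [hpow]
  have hpp : ∀ s : Finset ℕ, (∀ i ∈ s, 1 ≤ i) → 0 < ∏ i ∈ s, (1 - Real.exp (-τ) ^ i) :=
    fun s hs => Finset.prod_pos fun i hi => hp i (hs i hi)
  have q1 : ∀ i ∈ Icc 1 n, 1 ≤ i := fun i hi => (Finset.mem_Icc.1 hi).1
  have q2 : ∀ i ∈ Ioc n (2 * n), 1 ≤ i := fun i hi => by have := (Finset.mem_Ioc.1 hi).1; omega
  have q3 : ∀ i ∈ Ioc (3 * n) (6 * n), 1 ≤ i := fun i hi => by
    have := (Finset.mem_Ioc.1 hi).1; omega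
  rw [Real.log_mul (Pr_pos n (Real.exp_pos _)).ne'
    (mul_pos (hpp _ q1) (pow_pos (hpp _ q2) 2)).ne', Real.log_mul (hpp _ q1).ne'
    (pow_pos (hpp _ q2) 2).ne', Real.log_pow, hs _ q1, hs _ q2, hs _ q3] at h
  unfold D
  push_cast at h
  linarith

theorem Pr_exp (n : ℕ) (τ : ℝ) :
    Pr n (Real.exp (-τ)) = ∑ k ∈ range (10 * n ^ 2 + 1), (a n k : ℝ) * Real.exp (-(k * τ)) := by
  unfold Pr
  refine Finset.sum_congr rfl fun k _ => ?_
  rw [← Real.exp_nat_mul]; ring_nf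

theorem hasDerivAt_exp_mul (c τ : ℝ) :
    HasDerivAt (fun t : ℝ => Real.exp (c * t)) (c * Real.exp (c * τ)) τ := by
  have h := ((hasDerivAt_id' τ).const_mul c).exp
  refine h.congr_deriv ?_
  ring

theorem hasDerivAt_exp_neg_mul (c τ : ℝ) :
    HasDerivAt (fun t : ℝ => Real.exp (-(c * t))) (-(c * Real.exp (-(c * τ)))) τ := by
  have h := hasDerivAt_exp_mul (-c) τ
  simp only [neg_mul] at h
  exact h

theorem hasDerivAt_Pr (n : ℕ) (τ : ℝ) :
    HasDerivAt (fun t => Pr n (Real.exp (-t)))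
      (-∑ k ∈ range (10 * n ^ 2 + 1), (a n k : ℝ) * Real.exp (-(k * τ)) * k) τ := by
  simp_rw [Pr_exp]
  rw [← Finset.sum_neg_distrib]
  refine HasDerivAt.fun_sum fun k _ => ?_
  refine ((hasDerivAt_exp_neg_mul k τ).const_mul (a n k : ℝ)).congr_deriv ?_
  ring

theorem one_sub_exp_pos {τ : ℝ} (hτ : 0 < τ) {i : ℕ} (hi : 1 ≤ i) : 0 < 1 - Real.exp (-(i * τ)) := by
  have hi' : (0 : ℝ) < i := by exact_mod_cast hi
  have : Real.exp (-(i * τ)) < 1 := by rw [Real.exp_lt_one_iff]; have := mul_pos hi' hτ; linarith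
  linarith

/-- first derivative: `∑ k a_k r^k = mu * P(r)` -/
theorem sum_k (n : ℕ) {τ : ℝ} (hτ : 0 < τ) :
    ∑ k ∈ range (10 * n ^ 2 + 1), (a n k : ℝ) * Real.exp (-(k * τ)) * k
      = mu n τ * Pr n (Real.exp (-τ)) := by
  have h1 : HasDerivAt (fun t => D n (fun i => Real.log (1 - Real.exp (-(i * t)))))
      (mu n τ) τ := by
    refine hasDerivAt_D n (fun i t => Real.log (1 - Real.exp (-(i * t)))) _ τ fun i hi => ?_
    have hpos := one_sub_exp_pos hτ hi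
    have h := ((hasDerivAt_exp_neg_mul i τ).const_sub 1).log hpos.ne'
    refine h.congr_deriv ?_
    have e1 : Real.exp (i * τ) * Real.exp (-(i * τ)) = 1 := by rw [← Real.exp_add]; simp
    have hne : Real.exp (i * τ) - 1 ≠ 0 := by
      intro h0
      have : Real.exp (i * τ) = 1 := by linarith
      rw [this, one_mul] at e1
      rw [e1] at hpos; norm_num at hpos
    rw [div_eq_div_iff hpos.ne' hne]
    linear_combination (i : ℝ) * e1
  have hPpos := Pr_pos n (Real.exp_pos (-τ))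
  have h2 := (hasDerivAt_Pr n τ).log hPpos.ne'
  have h3 : (fun t => Real.log (Pr n (Real.exp (-t))))
      =ᶠ[nhds τ] (fun t => - D n (fun i => Real.log (1 - Real.exp (-(i * t))))) := by
    filter_upwards [lt_mem_nhds hτ] with t ht using log_Pr n ht
  have h4 := (h1.neg).congr_of_eventuallyEq h3
  have h5 := h2.unique h4
  rw [div_eq_iff hPpos.ne'] at h5
  linarith

/-- derivative of the mean -/
theorem hasDerivAt_mu (n : ℕ) {τ : ℝ} (hτ : 0 < τ) : HasDerivAt (mu n) (-V n τ) τ := by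
  have h1 : HasDerivAt (fun t => D n (fun i => (i : ℝ) / (Real.exp (i * t) - 1)))
      (D n (fun i => -ka τ i)) τ := by
    refine hasDerivAt_D n (fun i t => (i : ℝ) / (Real.exp (i * t) - 1)) _ τ fun i hi => ?_
    have hi' : (0 : ℝ) < i := by exact_mod_cast hi
    have hit : 0 < (i : ℝ) * τ := mul_pos hi' hτ
    have hgt : 0 < Real.exp (i * τ) - 1 := by
      have : 1 < Real.exp (i * τ) := by rw [Real.one_lt_exp_iff]; exact hit
      linarith
    have he : HasDerivAt (fun t : ℝ => Real.exp (i * t) - 1) (i * Real.exp (i * τ)) τ :=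
      (hasDerivAt_exp_mul (i : ℝ) τ).sub_const 1
    have h := (hasDerivAt_const τ (i : ℝ)).fun_div he hgt.ne'
    refine h.congr_deriv ?_
    have hsinh : 0 < Real.sinh (i * τ / 2) := Real.sinh_pos_iff.2 (by linarith)
    have hE : Real.exp (i * τ) * (4 * Real.sinh (i * τ / 2) ^ 2) = (Real.exp (i * τ) - 1) ^ 2 := by
      rw [Real.sinh_eq]
      have e1 : Real.exp (i * τ) = Real.exp (i * τ / 2) ^ 2 := by
        rw [← Real.exp_nat_mul]; ring_nf
      have e2 : Real.exp (i * τ / 2) * Real.exp (-(i * τ / 2)) = 1 := by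
        rw [← Real.exp_add]; simp
      rw [e1]
      generalize Real.exp (i * τ / 2) = u at *
      generalize Real.exp (-(i * τ / 2)) = v at *
      have : (u ^ 2 - 1) ^ 2 = (u ^ 2 - u * v) ^ 2 := by rw [e2]
      rw [this]; ring
    rw [← hE]
    simp only [ka]
    have hexp := Real.exp_pos (i * τ)
    rw [zero_mul, zero_sub]
    field_simp
  have h2 : D n (fun i => -ka τ i) = -V n τ := by
    have := D_mul n (-1) (ka τ)
    simp only [neg_one_mul] at this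
    rw [this]; rfl
  rw [h2] at h1
  exact h1

/-- second moment -/
theorem sum_k_sq (n : ℕ) {τ : ℝ} (hτ : 0 < τ) :
    ∑ k ∈ range (10 * n ^ 2 + 1), (a n k : ℝ) * Real.exp (-(k * τ)) * (k : ℝ) ^ 2
      = (V n τ + mu n τ ^ 2) * Pr n (Real.exp (-τ)) := by
  have h1 : HasDerivAt (fun t => ∑ k ∈ range (10 * n ^ 2 + 1), (a n k : ℝ) * Real.exp (-(k * t)) * k)
      (-∑ k ∈ range (10 * n ^ 2 + 1), (a n k : ℝ) * Real.exp (-(k * τ)) * (k : ℝ) ^ 2) τ := by
    rw [← Finset.sum_neg_distrib]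
    refine HasDerivAt.fun_sum fun k _ => ?_
    refine (((hasDerivAt_exp_neg_mul k τ).const_mul (a n k : ℝ)).mul_const (k : ℝ)).congr_deriv ?_
    ring
  have h2 := (hasDerivAt_mu n hτ).mul (hasDerivAt_Pr n τ)
  have h3 : (fun t => ∑ k ∈ range (10 * n ^ 2 + 1), (a n k : ℝ) * Real.exp (-(k * t)) * k)
      =ᶠ[nhds τ] (mu n * fun t => Pr n (Real.exp (-t))) := by
    filter_upwards [lt_mem_nhds hτ] with t ht using sum_k n ht
  have h4 := h2.congr_of_eventuallyEq h3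
  have h5 := h1.unique h4
  rw [sum_k n hτ] at h5
  linarith

/-- MV1: the mean of the tilted law -/
theorem mean_eq (n : ℕ) (hn : 1 ≤ n) {τ : ℝ} (hτ : 0 < τ) :
    ∑ k ∈ range (10 * n ^ 2 + 1), (a n k : ℝ) * Real.exp (-τ) ^ k * ((k : ℝ) - mu n τ) = 0 := by
  have hpow : ∀ i : ℕ, Real.exp (-τ) ^ i = Real.exp (-(i * τ)) := by
    intro i; rw [← Real.exp_nat_mul]; ring_nf
  simp_rw [hpow, mul_sub, Finset.sum_sub_distrib, ← Finset.sum_mul]
  rw [sum_k n hτ, Pr_exp]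
  ring

/-- MV2: the variance of the tilted law -/
theorem var_eq (n : ℕ) (hn : 1 ≤ n) {τ : ℝ} (hτ : 0 < τ) :
    ∑ k ∈ range (10 * n ^ 2 + 1), (a n k : ℝ) * Real.exp (-τ) ^ k * ((k : ℝ) - mu n τ) ^ 2
      = V n τ * Pr n (Real.exp (-τ)) := by
  have hpow : ∀ i : ℕ, Real.exp (-τ) ^ i = Real.exp (-(i * τ)) := by
    intro i; rw [← Real.exp_nat_mul]; ring_nf
  have h1 := sum_k n hτ
  have h2 := sum_k_sq n hτ
  have h3 := Pr_exp n τ
  have : ∑ k ∈ range (10 * n ^ 2 + 1), (a n k : ℝ) * Real.exp (-τ) ^ k * ((k : ℝ) - mu n τ) ^ 2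
      = ∑ k ∈ range (10 * n ^ 2 + 1), ((a n k : ℝ) * Real.exp (-(k * τ)) * (k : ℝ) ^ 2
        - 2 * mu n τ * ((a n k : ℝ) * Real.exp (-(k * τ)) * k)
        + mu n τ ^ 2 * ((a n k : ℝ) * Real.exp (-(k * τ)))) := by
    refine Finset.sum_congr rfl fun k _ => ?_
    rw [hpow]; ring
  rw [this, Finset.sum_add_distrib, Finset.sum_sub_distrib, ← Finset.mul_sum, ← Finset.mul_sum,
    h1, h2, ← h3]
  ring

end C048
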