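import Pool.Agent.helper70.KU.Alg

/-! Module A1: the difference formula (orthogonality of cosines + symmetry). -/

namespace C048

open Finset MeasureTheory

/-- `∫_0^π cos (jθ) = π` if `j = 0`, `0` otherwise. -/
theorem integral_cos_int (j : ℤ) :
    ∫ θ in (0:ℝ)..Real.pi, Real.cos ((j : ℝ) * θ) = if j = 0 then Real.pi else 0 := by
  split_ifs with h
  · subst h; simp
  · have hj : (j : ℝ) ≠ 0 := by exact_mod_cast h
    rw [intervalIntegral.integral_comp_mul_left (f := Real.cos) hj, integral_cos]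
    simp [Real.sin_int_mul_pi]

theorem integral_Qf_cos (n L : ℕ) (hL : L ≤ 5 * n ^ 2) :
    ∫ θ in (0:ℝ)..Real.pi, Qf n θ * Real.cos ((L : ℝ) * θ) = Real.pi * a n (5 * n ^ 2 - L) := by
  have h1 : ∀ θ : ℝ, Qf n θ * Real.cos ((L : ℝ) * θ)
      = ∑ k ∈ range (10 * n ^ 2 + 1), (a n k : ℝ) / 2 *
        (Real.cos ((((k : ℤ) - 5 * (n : ℤ) ^ 2 + L : ℤ) : ℝ) * θ)
          + Real.cos ((((k : ℤ) - 5 * (n : ℤ) ^ 2 - L : ℤ) : ℝ) * θ)) := by
    intro θ
    rw [Qf, Finset.sum_mul]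
    refine Finset.sum_congr rfl fun k _ => ?_
    push_cast
    have e1 : ((k : ℝ) - 5 * (n : ℝ) ^ 2 + L) * θ = ((k : ℝ) - 5 * (n : ℝ) ^ 2) * θ + L * θ := by ring
    have e2 : ((k : ℝ) - 5 * (n : ℝ) ^ 2 - L) * θ = ((k : ℝ) - 5 * (n : ℝ) ^ 2) * θ - L * θ := by ring
    rw [e1, e2, Real.cos_add, Real.cos_sub]
    ring
  have hci : ∀ j : ℤ, IntervalIntegrable (fun θ : ℝ => Real.cos ((j : ℝ) * θ)) volume 0 Real.pi :=
    fun j => Continuous.intervalIntegrable (by fun_prop) _ _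
  calc ∫ θ in (0:ℝ)..Real.pi, Qf n θ * Real.cos ((L : ℝ) * θ)
      = ∫ θ in (0:ℝ)..Real.pi, ∑ k ∈ range (10 * n ^ 2 + 1), (a n k : ℝ) / 2 *
        (Real.cos ((((k : ℤ) - 5 * (n : ℤ) ^ 2 + L : ℤ) : ℝ) * θ)
          + Real.cos ((((k : ℤ) - 5 * (n : ℤ) ^ 2 - L : ℤ) : ℝ) * θ)) := by
        simp_rw [h1]
    _ = ∑ k ∈ range (10 * n ^ 2 + 1), (a n k : ℝ) / 2 *
        ((if ((k : ℤ) - 5 * (n : ℤ) ^ 2 + L : ℤ) = 0 then Real.pi else 0)
          + (if ((k : ℤ) - 5 * (n : ℤ) ^ 2 - L : ℤ) = 0 then Real.pi else 0)) := by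
        rw [intervalIntegral.integral_finsetSum]
        · refine Finset.sum_congr rfl fun k _ => ?_
          rw [intervalIntegral.integral_const_mul, intervalIntegral.integral_add (hci _) (hci _),
            integral_cos_int, integral_cos_int]
        · intro k _
          exact ((hci _).add (hci _)).const_mul _
    _ = Real.pi / 2 * (∑ k ∈ range (10 * n ^ 2 + 1), (if k = 5 * n ^ 2 - L then (a n k : ℝ) else 0))
        + Real.pi / 2 * (∑ k ∈ range (10 * n ^ 2 + 1), (if k = 5 * n ^ 2 + L then (a n k : ℝ) else 0)) := by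
        rw [Finset.mul_sum, Finset.mul_sum, ← Finset.sum_add_distrib]
        refine Finset.sum_congr rfl fun k _ => ?_
        have c1 : ((k : ℤ) - 5 * (n : ℤ) ^ 2 + L = 0) ↔ k = 5 * n ^ 2 - L := by
          zify [hL]; constructor <;> intro h <;> linarith
        have c2 : ((k : ℤ) - 5 * (n : ℤ) ^ 2 - L = 0) ↔ k = 5 * n ^ 2 + L := by
          zify; constructor <;> intro h <;> linarith
        simp only [c1, c2]
        split_ifs <;> ring
    _ = Real.pi * a n (5 * n ^ 2 - L) := by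
        rw [Finset.sum_ite_eq' , Finset.sum_ite_eq']
        have m1 : 5 * n ^ 2 - L ∈ range (10 * n ^ 2 + 1) := by
          rw [Finset.mem_range]; omega
        have m2 : 5 * n ^ 2 + L ∈ range (10 * n ^ 2 + 1) := by
          rw [Finset.mem_range]; omega
        rw [if_pos m1, if_pos m2]
        have hs := a_symm n (5 * n ^ 2 - L) (by omega)
        have : 10 * n ^ 2 - (5 * n ^ 2 - L) = 5 * n ^ 2 + L := by omega
        rw [this] at hs
        rw [hs]; ring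

/-- A1 -/
theorem diff_formula (n m : ℕ) (hm : m + 1 ≤ 5 * n ^ 2) :
    ((a n (m + 1) : ℝ) - a n m) * Real.pi
      = ∫ θ in (0:ℝ)..Real.pi, Qf n θ * (2 * Real.sin ((5 * (n : ℝ) ^ 2 - m - 1 / 2) * θ)
          * Real.sin (θ / 2)) := by
  have h1 := integral_Qf_cos n (5 * n ^ 2 - (m + 1)) (by omega)
  have h2 := integral_Qf_cos n (5 * n ^ 2 - m) (by omega)
  have e1 : 5 * n ^ 2 - (5 * n ^ 2 - (m + 1)) = m + 1 := by omega
  have e2 : 5 * n ^ 2 - (5 * n ^ 2 - m) = m := by omega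
  rw [e1] at h1
  rw [e2] at h2
  have hc : Continuous (fun θ => Qf n θ) := by unfold Qf; fun_prop
  have h3 : ∀ θ : ℝ, Qf n θ * (2 * Real.sin ((5 * (n : ℝ) ^ 2 - m - 1 / 2) * θ) * Real.sin (θ / 2))
      = Qf n θ * Real.cos (((5 * n ^ 2 - (m + 1) : ℕ) : ℝ) * θ)
        - Qf n θ * Real.cos (((5 * n ^ 2 - m : ℕ) : ℝ) * θ) := by
    intro θ
    rw [Nat.cast_sub (by omega), Nat.cast_sub (by omega)]
    push_cast
    have a1 : (5 * (n : ℝ) ^ 2 - (m + 1)) * θ = (5 * (n : ℝ) ^ 2 - m - 1 / 2) * θ - θ / 2 := by ring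
    have a2 : (5 * (n : ℝ) ^ 2 - m) * θ = (5 * (n : ℝ) ^ 2 - m - 1 / 2) * θ + θ / 2 := by ring
    rw [a1, a2, Real.cos_add, Real.cos_sub]
    ring
  simp_rw [h3]
  rw [intervalIntegral.integral_sub, h1, h2]
  · ring
  · exact Continuous.intervalIntegrable (by fun_prop) _ _
  · exact Continuous.intervalIntegrable (by fun_prop) _ _

end C048
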