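import Pool.Agent.helper53.KU.ABS
import Pool.Agent.helper70.KU.DB

/-! Module A2: Gaussian upper and lower bounds of `Q_n(θ)` near `θ = 0`. -/

namespace C048

open Finset

/-- `1 - e^{ix} = (-i) (2 sin(x/2)) e^{ix/2}` -/
theorem one_sub_exp_I (x : ℝ) :
    1 - Complex.exp (x * Complex.I)
      = (-Complex.I) * ((2 * Real.sin (x / 2) : ℝ) : ℂ) * Complex.exp ((x / 2 : ℝ) * Complex.I) := by
  have e1 : Complex.exp (x * Complex.I) = Complex.exp ((x / 2 : ℝ) * Complex.I) ^ 2 := by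
    rw [← Complex.exp_nat_mul]; congr 1; push_cast; ring
  have e2 : Complex.exp (((x / 2 : ℝ) : ℂ) * Complex.I)
      = (Real.cos (x / 2) : ℂ) + (Real.sin (x / 2) : ℂ) * Complex.I := by
    rw [Complex.exp_mul_I, ← Complex.ofReal_cos, ← Complex.ofReal_sin]
  have e3 : (Real.sin (x / 2) : ℂ) ^ 2 + (Real.cos (x / 2) : ℂ) ^ 2 = 1 := by
    exact_mod_cast Real.sin_sq_add_cos_sq (x / 2)
  rw [e1, e2, Complex.ofReal_mul, Complex.ofReal_ofNat]
  generalize (Real.sin (x / 2) : ℂ) = s at *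
  generalize (Real.cos (x / 2) : ℂ) = c at *
  have hI := Complex.I_sq
  linear_combination (-e3) + (s ^ 2) * hI

/-- product of `1 - e^{ijθ}` over a finite set -/
theorem prod_one_sub_exp (s : Finset ℕ) (θ : ℝ) :
    ∏ i ∈ s, (1 - Complex.exp (θ * Complex.I) ^ i)
      = (-Complex.I) ^ s.card * ((∏ i ∈ s, (2 * Real.sin (i * θ / 2)) : ℝ) : ℂ)
        * Complex.exp (((∑ i ∈ s, (i : ℝ)) * (θ / 2) : ℝ) * Complex.I) := by
  have h : ∀ i ∈ s, (1 - Complex.exp (θ * Complex.I) ^ i)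
      = (-Complex.I) * ((2 * Real.sin (i * θ / 2) : ℝ) : ℂ)
        * Complex.exp ((i * θ / 2 : ℝ) * Complex.I) := by
    intro i _
    rw [← one_sub_exp_I (i * θ), ← Complex.exp_nat_mul]
    congr 2; push_cast; ring
  rw [Finset.prod_congr rfl h, Finset.prod_mul_distrib, Finset.prod_mul_distrib,
    Finset.prod_const, ← Complex.exp_sum, Complex.ofReal_prod]
  congr 2
  rw [← Finset.sum_mul]
  congr 1
  rw [← Complex.ofReal_sum]
  congr 1
  rw [Finset.sum_mul]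
  refine Finset.sum_congr rfl fun i _ => by ring

theorem sum_id_Icc (n : ℕ) : ∑ i ∈ Icc 1 n, (i : ℝ) = n * (n + 1) / 2 := by
  induction n with
  | zero => simp
  | succ n ih => rw [Finset.sum_Icc_succ_top (by omega), ih]; push_cast; ring

theorem sum_id_Ioc {m n : ℕ} (h : m ≤ n) :
    ∑ i ∈ Ioc m n, (i : ℝ) = n * (n + 1) / 2 - m * (m + 1) / 2 := by
  have := sum_Icc_split h (fun i => (i : ℝ))
  rw [sum_id_Icc, sum_id_Icc] at this
  linarith

theorem Qf_aux (P : ℂ) (A1 A2 A3 x1 x2 x3 y : ℝ) (n : ℕ) (hx : x1 + 2 * x2 = -y + x3)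
    (h : P * ((-Complex.I) ^ n * (A1 : ℂ) * Complex.exp (x1 * Complex.I)
        * ((-Complex.I) ^ n * (A2 : ℂ) * Complex.exp (x2 * Complex.I)) ^ 2)
      = (-Complex.I) ^ (n + n * 2) * (A3 : ℂ) * Complex.exp (x3 * Complex.I)) :
    P * Complex.exp (-(y : ℂ) * Complex.I) * ((A1 * A2 ^ 2 : ℝ) : ℂ) = (A3 : ℂ) := by
  have he : Complex.exp (x1 * Complex.I) * Complex.exp (x2 * Complex.I) ^ 2
      = Complex.exp (-(y : ℂ) * Complex.I) * Complex.exp (x3 * Complex.I) := by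
    rw [← Complex.exp_nat_mul, ← Complex.exp_add, ← Complex.exp_add]
    congr 1
    have : (x1 : ℂ) + 2 * x2 = -y + x3 := by exact_mod_cast hx
    push_cast
    linear_combination Complex.I * this
  have hI : (-Complex.I) ^ (n + n * 2) ≠ 0 := pow_ne_zero _ (neg_ne_zero.2 Complex.I_ne_zero)
  have h3 : Complex.exp (x3 * Complex.I) ≠ 0 := Complex.exp_ne_zero _
  have h4 : (P * Complex.exp (-(y : ℂ) * Complex.I) * ((A1 * A2 ^ 2 : ℝ) : ℂ))
      * ((-Complex.I) ^ (n + n * 2) * Complex.exp (x3 * Complex.I))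
      = (A3 : ℂ) * ((-Complex.I) ^ (n + n * 2) * Complex.exp (x3 * Complex.I)) := by
    have hp : (-Complex.I) ^ (n + n * 2) = (-Complex.I) ^ n * ((-Complex.I) ^ n) ^ 2 := by
      rw [pow_add, pow_mul]
    rw [hp] at h ⊢
    push_cast
    linear_combination h - P * A1 * A2 ^ 2 * ((-Complex.I) ^ n * ((-Complex.I) ^ n) ^ 2) * he
  exact mul_right_cancel₀ (mul_ne_zero hI h3) h4

/-- the product formula for `Q_n(θ)` -/
theorem Qf_identity (n : ℕ) (θ : ℝ) :
    Qf n θ * ((∏ i ∈ Icc 1 n, (2 * Real.sin (i * θ / 2)))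
        * (∏ i ∈ Ioc n (2 * n), (2 * Real.sin (i * θ / 2))) ^ 2)
      = ∏ i ∈ Ioc (3 * n) (6 * n), (2 * Real.sin (i * θ / 2)) := by
  have h := Pz_identity n (Complex.exp (θ * Complex.I))
  rw [prod_one_sub_exp, prod_one_sub_exp, prod_one_sub_exp] at h
  simp only [Nat.card_Icc, Nat.card_Ioc, Nat.add_sub_cancel] at h
  rw [show 2 * n - n = n by omega, show 6 * n - 3 * n = n + n * 2 by omega, sum_id_Icc,
    sum_id_Ioc (by omega), sum_id_Ioc (by omega)] at h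
  have hQ : (Pz n (Complex.exp (θ * Complex.I)) * Complex.exp (-((5 * (n : ℝ) ^ 2 * θ : ℝ) : ℂ) * Complex.I)).re
      = Qf n θ := by
    unfold Pz Qf
    rw [Finset.sum_mul, Complex.re_sum]
    refine Finset.sum_congr rfl fun k _ => ?_
    rw [← Complex.exp_nat_mul, mul_assoc, ← Complex.exp_add]
    have : (k : ℂ) * (θ * Complex.I) + -((5 * (n : ℝ) ^ 2 * θ : ℝ) : ℂ) * Complex.I
        = (((k : ℝ) - 5 * (n : ℝ) ^ 2) * θ : ℝ) * Complex.I := by push_cast; ring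
    rw [this, ← Complex.ofReal_natCast, Complex.re_ofReal_mul, Complex.exp_ofReal_mul_I_re]
  rw [← hQ]
  generalize (∏ i ∈ Icc 1 n, (2 * Real.sin (i * θ / 2))) = A1 at *
  generalize (∏ i ∈ Ioc n (2 * n), (2 * Real.sin (i * θ / 2))) = A2 at *
  generalize (∏ i ∈ Ioc (3 * n) (6 * n), (2 * Real.sin (i * θ / 2))) = A3 at *
  generalize Pz n (Complex.exp (θ * Complex.I)) = P at *
  have key := Qf_aux P A1 A2 A3 _ _ _ (5 * (n : ℝ) ^ 2 * θ) n (by push_cast; ring) h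
  have := congrArg Complex.re key
  rw [Complex.re_mul_ofReal, Complex.ofReal_re] at this
  exact this

theorem two_sin_eq (i : ℕ) (θ : ℝ) : 2 * Real.sin (i * θ / 2) = (i * θ) * Real.sinc (i * θ / 2) := by
  by_cases h : (i : ℝ) * θ / 2 = 0
  · have h' : (i : ℝ) * θ = 0 := by linarith
    rw [h, h']; simp
  · rw [Real.sinc_of_ne_zero h]
    have h' : (i : ℝ) * θ ≠ 0 := fun h0 => h (by rw [h0]; simp)
    generalize (i : ℝ) * θ = t at *
    field_simp

theorem Qf_sinc (n : ℕ) (θ : ℝ) :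
    Qf n θ * ((∏ i ∈ Icc 1 n, Real.sinc (i * θ / 2)) * (∏ i ∈ Ioc n (2 * n), Real.sinc (i * θ / 2)) ^ 2)
      = Pr n 1 * ∏ i ∈ Ioc (3 * n) (6 * n), Real.sinc (i * θ / 2) := by
  have hQc : Continuous (Qf n) := by unfold Qf; fun_prop
  have hS : ∀ s : Finset ℕ, Continuous (fun θ : ℝ => ∏ i ∈ s, Real.sinc (i * θ / 2)) := by
    intro s
    refine continuous_finsetProd _ fun i _ => ?_
    exact Real.continuous_sinc.comp (by fun_prop)
  set N1 : ℝ := (∏ i ∈ Icc 1 n, (i : ℝ)) * (∏ i ∈ Ioc n (2 * n), (i : ℝ)) ^ 2 with hN1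
  set N3 : ℝ := ∏ i ∈ Ioc (3 * n) (6 * n), (i : ℝ) with hN3
  have hpos : 0 < N1 := by
    rw [hN1]
    refine mul_pos (Finset.prod_pos fun i hi => ?_) (pow_pos (Finset.prod_pos fun i hi => ?_) 2)
    · have := (Finset.mem_Icc.1 hi).1; positivity
    · have := (Finset.mem_Ioc.1 hi).1
      have : 0 < i := by omega
      positivity
  have hprod : ∀ (s : Finset ℕ) (θ : ℝ), ∏ i ∈ s, (2 * Real.sin (i * θ / 2))
      = (∏ i ∈ s, (i : ℝ)) * θ ^ s.card * ∏ i ∈ s, Real.sinc (i * θ / 2) := by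
    intro s θ
    rw [← Finset.prod_const, ← Finset.prod_mul_distrib, ← Finset.prod_mul_distrib]
    exact Finset.prod_congr rfl fun i _ => two_sin_eq i θ
  have key : (fun θ : ℝ => N1 * (Qf n θ * ((∏ i ∈ Icc 1 n, Real.sinc (i * θ / 2))
        * (∏ i ∈ Ioc n (2 * n), Real.sinc (i * θ / 2)) ^ 2)))
      = fun θ : ℝ => N3 * ∏ i ∈ Ioc (3 * n) (6 * n), Real.sinc (i * θ / 2) := by
    refine Continuous.ext_on (dense_compl_singleton (0 : ℝ)) ?_ ?_ ?_
    · exact continuous_const.mul (hQc.mul ((hS _).mul ((hS _).pow 2)))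
    · exact continuous_const.mul (hS _)
    · intro θ hθ
      have hθ0 : θ ≠ 0 := hθ
      have h := Qf_identity n θ
      rw [hprod, hprod, hprod] at h
      simp only [Nat.card_Icc, Nat.card_Ioc, Nat.add_sub_cancel] at h
      rw [show 2 * n - n = n by omega, show 6 * n - 3 * n = n + n * 2 by omega, pow_add θ n,
        pow_mul] at h
      have h2 : θ ^ n * (θ ^ n) ^ 2 ≠ 0 := by positivity
      refine mul_right_cancel₀ h2 ?_
      simp only [hN1, hN3]
      linear_combination h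
  have h0 := congrFun key 0
  simp only [mul_zero, zero_div, Real.sinc_zero, Finset.prod_const_one, one_pow, mul_one] at h0
  have hQ0 : Qf n 0 = Pr n 1 := by simp [Qf, Pr]
  rw [hQ0] at h0
  have h1 := congrFun key θ
  rw [← h0] at h1
  refine mul_left_cancel₀ hpos.ne' ?_
  linear_combination h1

theorem sinc_pos {z : ℝ} (h0 : 0 ≤ z) (h1 : z < Real.pi) : 0 < Real.sinc z := by
  rcases h0.eq_or_lt with h | h
  · rw [← h]; simp
  · rw [Real.sinc_of_ne_zero h.ne']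
    exact div_pos (Real.sin_pos_of_pos_of_lt_pi h h1) h

theorem Qf_eq_exp (n : ℕ) {θ : ℝ} (h0 : 0 ≤ θ) (h1 : 3 * n * θ < Real.pi) :
    Qf n θ = Pr n 1 * Real.exp (-D n (fun i => Real.log (Real.sinc (i * θ / 2)))) := by
  have h := Qf_sinc n θ
  have hp : ∀ i : ℕ, i ≤ 6 * n → 0 < Real.sinc (i * θ / 2) := by
    intro i hi
    refine sinc_pos (by positivity) ?_
    have : (i : ℝ) ≤ 6 * n := by exact_mod_cast hi
    have := mul_le_mul_of_nonneg_right this h0
    linarith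
  have hc : ∀ s : Finset ℕ, (∀ i ∈ s, i ≤ 6 * n) → ∏ i ∈ s, Real.sinc (i * θ / 2)
      = ∏ i ∈ s, Real.exp (Real.log (Real.sinc (i * θ / 2))) := by
    intro s hs
    refine Finset.prod_congr rfl fun i hi => ?_
    rw [Real.exp_log (hp i (hs i hi))]
  rw [hc (Icc 1 n) (fun i hi => by have := (Finset.mem_Icc.1 hi).2; omega),
    hc (Ioc n (2 * n)) (fun i hi => by have := (Finset.mem_Ioc.1 hi).2; omega),
    hc (Ioc (3 * n) (6 * n)) (fun i hi => (Finset.mem_Ioc.1 hi).2), prod_exp_D] at h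
  have hpos : 0 < ∏ i ∈ Ioc (3 * n) (6 * n), Real.exp (Real.log (Real.sinc (i * θ / 2))) :=
    Finset.prod_pos fun i _ => Real.exp_pos _
  rw [← mul_assoc] at h
  have h2 := mul_right_cancel₀ hpos.ne' h
  rw [Real.exp_neg, ← h2, mul_assoc, mul_inv_cancel₀ (Real.exp_ne_zero _), mul_one]

theorem hasDerivAt_log_sinc {z : ℝ} (h0 : 0 < z) (h1 : z < Real.pi) :
    HasDerivAt (fun z => Real.log (Real.sinc z)) (Real.cos z / Real.sin z - 1 / z) z := by
  have hs : 0 < Real.sin z := Real.sin_pos_of_pos_of_lt_pi h0 h1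
  have h := ((Real.hasDerivAt_sin z).log hs.ne').sub (Real.hasDerivAt_log h0.ne')
  rw [← one_div] at h
  refine h.congr_of_eventuallyEq ?_
  filter_upwards [lt_mem_nhds h0, gt_mem_nhds h1] with t ht0 ht1
  have hst : 0 < Real.sin t := Real.sin_pos_of_pos_of_lt_pi ht0 ht1
  rw [Real.sinc_of_ne_zero ht0.ne', Real.log_div hst.ne' ht0.ne']
  rfl

/-- `f(0) = 0`, `f' ≥ 0` on `[0,b]` implies `f ≥ 0` -/
theorem nonneg_of_deriv {f f' : ℝ → ℝ} {b : ℝ} (h0 : f 0 = 0) (hd : ∀ x, HasDerivAt f (f' x) x)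
    (hf : ∀ x, 0 ≤ x → x ≤ b → 0 ≤ f' x) {x : ℝ} (hx : 0 ≤ x) (hxb : x ≤ b) : 0 ≤ f x := by
  have hm : MonotoneOn f (Set.Icc 0 b) := by
    refine monotoneOn_of_deriv_nonneg (convex_Icc 0 b)
      (fun y _ => (hd y).continuousAt.continuousWithinAt)
      (fun y _ => (hd y).differentiableAt.differentiableWithinAt) ?_
    intro y hy
    rw [interior_Icc] at hy
    rw [(hd y).deriv]
    exact hf y hy.1.le hy.2.le
  have := hm (Set.left_mem_Icc.2 (hx.trans hxb)) ⟨hx, hxb⟩ hx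
  rwa [h0] at this

theorem sin_sub_mul_cos_nonneg {z : ℝ} (h0 : 0 ≤ z) (h1 : z ≤ Real.pi) :
    0 ≤ Real.sin z - z * Real.cos z := by
  refine nonneg_of_deriv (f := fun z => Real.sin z - z * Real.cos z)
    (f' := fun z => z * Real.sin z) (b := Real.pi) (by simp) ?_ ?_ h0 h1
  · intro x
    have := (Real.hasDerivAt_sin x).sub ((hasDerivAt_id' x).mul (Real.hasDerivAt_cos x))
    refine this.congr_deriv ?_
    ring
  · intro x hx hx1
    exact mul_nonneg hx (Real.sin_nonneg_of_nonneg_of_le_pi hx hx1)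

theorem cot_upper {z : ℝ} (h0 : 0 ≤ z) (h1 : z ≤ Real.pi) :
    0 ≤ Real.sin z * (1 - z ^ 2 / 3) - z * Real.cos z := by
  refine nonneg_of_deriv (f := fun z => Real.sin z * (1 - z ^ 2 / 3) - z * Real.cos z)
    (f' := fun z => z / 3 * (Real.sin z - z * Real.cos z)) (b := Real.pi) (by simp) ?_ ?_ h0 h1
  · intro x
    have e1 : HasDerivAt (fun z : ℝ => 1 - z ^ 2 / 3) (-(2 * x / 3)) x := by
      have := ((hasDerivAt_pow 2 x).div_const 3).const_sub 1
      refine this.congr_deriv ?_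
      simp
    have := ((Real.hasDerivAt_sin x).mul e1).sub ((hasDerivAt_id' x).mul (Real.hasDerivAt_cos x))
    refine this.congr_deriv ?_
    ring
  · intro x hx hx1
    exact mul_nonneg (by positivity) (sin_sub_mul_cos_nonneg hx hx1)

theorem logsinc_antitone : AntitoneOn (fun z => Real.log (Real.sinc z) + z ^ 2 / 6)
    (Set.Ico 0 Real.pi) := by
  have hd : ∀ z ∈ Set.Ioo 0 Real.pi, HasDerivAt (fun z => Real.log (Real.sinc z) + z ^ 2 / 6)
      (Real.cos z / Real.sin z - 1 / z + z / 3) z := by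
    intro z hz
    refine ((hasDerivAt_log_sinc hz.1 hz.2).add ((hasDerivAt_pow 2 z).div_const 6)).congr_deriv ?_
    simp; ring
  refine antitoneOn_of_deriv_nonpos (convex_Ico _ _) ?_ ?_ ?_
  · refine ContinuousOn.add (ContinuousOn.log Real.continuous_sinc.continuousOn
      fun z hz => (sinc_pos hz.1 hz.2).ne') (by fun_prop)
  · rw [interior_Ico]
    exact fun z hz => (hd z hz).differentiableAt.differentiableWithinAt
  · rw [interior_Ico]
    intro z hz
    rw [(hd z hz).deriv]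
    have hz0 := hz.1
    have hs : 0 < Real.sin z := Real.sin_pos_of_pos_of_lt_pi hz.1 hz.2
    have := cot_upper hz.1.le hz.2.le
    have e : Real.cos z / Real.sin z - 1 / z + z / 3
        = -(Real.sin z * (1 - z ^ 2 / 3) - z * Real.cos z) / (z * Real.sin z) := by
      field_simp
      ring
    rw [e]
    exact div_nonpos_of_nonpos_of_nonneg (by linarith) (by positivity)

theorem taylor3 {z : ℝ} (hz : 0 ≤ z) : 0 ≤ Real.sin z - z + z ^ 3 / 6 := by
  refine nonneg_of_deriv (f := fun z => Real.sin z - z + z ^ 3 / 6)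
    (f' := fun z => Real.cos z - 1 + z ^ 2 / 2) (b := z) (by simp) ?_ ?_ hz le_rfl
  · intro x
    refine (((Real.hasDerivAt_sin x).sub (hasDerivAt_id' x)).add
      ((hasDerivAt_pow 3 x).div_const 6)).congr_deriv ?_
    simp; ring
  · intro x _ _
    have := Real.one_sub_sq_div_two_le_cos (x := x)
    linarith

theorem taylor4 {z : ℝ} (hz : 0 ≤ z) : 0 ≤ 1 - z ^ 2 / 2 + z ^ 4 / 24 - Real.cos z := by
  refine nonneg_of_deriv (f := fun z => 1 - z ^ 2 / 2 + z ^ 4 / 24 - Real.cos z)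
    (f' := fun z => Real.sin z - z + z ^ 3 / 6) (b := z) (by simp) ?_ ?_ hz le_rfl
  · intro x
    refine (((((hasDerivAt_pow 2 x).div_const 2).const_sub 1).add
      ((hasDerivAt_pow 4 x).div_const 24)).sub (Real.hasDerivAt_cos x)).congr_deriv ?_
    simp; ring
  · intro x hx _
    exact taylor3 hx

theorem taylor5 {z : ℝ} (hz : 0 ≤ z) : 0 ≤ z - z ^ 3 / 6 + z ^ 5 / 120 - Real.sin z := by
  refine nonneg_of_deriv (f := fun z => z - z ^ 3 / 6 + z ^ 5 / 120 - Real.sin z)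
    (f' := fun z => 1 - z ^ 2 / 2 + z ^ 4 / 24 - Real.cos z) (b := z) (by simp) ?_ ?_ hz le_rfl
  · intro x
    refine ((((hasDerivAt_id' x).sub ((hasDerivAt_pow 3 x).div_const 6)).add
      ((hasDerivAt_pow 5 x).div_const 120)).sub (Real.hasDerivAt_sin x)).congr_deriv ?_
    simp; ring
  · intro x hx _
    exact taylor4 hx

theorem taylor6 {z : ℝ} (hz : 0 ≤ z) :
    0 ≤ Real.cos z - 1 + z ^ 2 / 2 - z ^ 4 / 24 + z ^ 6 / 720 := by
  refine nonneg_of_deriv (f := fun z => Real.cos z - 1 + z ^ 2 / 2 - z ^ 4 / 24 + z ^ 6 / 720)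
    (f' := fun z => z - z ^ 3 / 6 + z ^ 5 / 120 - Real.sin z) (b := z) (by simp) ?_ ?_ hz le_rfl
  · intro x
    refine (((((Real.hasDerivAt_cos x).sub_const 1).add ((hasDerivAt_pow 2 x).div_const 2)).sub
      ((hasDerivAt_pow 4 x).div_const 24)).add ((hasDerivAt_pow 6 x).div_const 720)).congr_deriv ?_
    simp; ring
  · intro x hx _
    exact taylor5 hx

theorem cot_lower {z : ℝ} (h0 : 0 ≤ z) (h1 : z ≤ 3 / 4) :
    0 ≤ z * Real.cos z - Real.sin z * (1 - z ^ 2 / 3 - z ^ 4 / 30) := by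
  have hs := taylor5 h0
  have hc := taylor6 h0
  have hz2 : z ^ 2 ≤ 9 / 16 := by nlinarith
  have hz4 : z ^ 4 ≤ 81 / 256 := by
    have : z ^ 4 = z ^ 2 * z ^ 2 := by ring
    rw [this]; nlinarith [sq_nonneg z]
  have hpos : 0 ≤ 1 - z ^ 2 / 3 - z ^ 4 / 30 := by linarith
  have a1 : Real.sin z * (1 - z ^ 2 / 3 - z ^ 4 / 30)
      ≤ (z - z ^ 3 / 6 + z ^ 5 / 120) * (1 - z ^ 2 / 3 - z ^ 4 / 30) :=
    mul_le_mul_of_nonneg_right (by linarith) hpos
  have a2 : z * (1 - z ^ 2 / 2 + z ^ 4 / 24 - z ^ 6 / 720) ≤ z * Real.cos z :=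
    mul_le_mul_of_nonneg_left (by linarith) h0
  have a3 : z * (1 - z ^ 2 / 2 + z ^ 4 / 24 - z ^ 6 / 720)
      - (z - z ^ 3 / 6 + z ^ 5 / 120) * (1 - z ^ 2 / 3 - z ^ 4 / 30)
      = z ^ 5 * (1 / 90 - z ^ 2 / 240) + z ^ 9 / 3600 := by ring
  have a4 : 0 ≤ z ^ 5 * (1 / 90 - z ^ 2 / 240) := mul_nonneg (by positivity) (by linarith)
  have a5 : 0 ≤ z ^ 9 / 3600 := by positivity
  linarith

theorem logsinc_monotone : MonotoneOn (fun z => Real.log (Real.sinc z) + z ^ 2 / 6 + z ^ 4 / 120)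
    (Set.Icc 0 (3 / 4)) := by
  have hpi := Real.pi_gt_three
  have hd : ∀ z ∈ Set.Ioo (0 : ℝ) (3 / 4),
      HasDerivAt (fun z => Real.log (Real.sinc z) + z ^ 2 / 6 + z ^ 4 / 120)
      (Real.cos z / Real.sin z - 1 / z + z / 3 + z ^ 3 / 30) z := by
    intro z hz
    refine (((hasDerivAt_log_sinc hz.1 (by linarith [hz.2])).add
      ((hasDerivAt_pow 2 z).div_const 6)).add ((hasDerivAt_pow 4 z).div_const 120)).congr_deriv ?_
    simp; ring
  refine monotoneOn_of_deriv_nonneg (convex_Icc _ _) ?_ ?_ ?_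
  · refine ContinuousOn.add (ContinuousOn.add (ContinuousOn.log Real.continuous_sinc.continuousOn
      fun z hz => (sinc_pos hz.1 (by linarith [hz.2])).ne') (by fun_prop)) (by fun_prop)
  · rw [interior_Icc]
    exact fun z hz => (hd z hz).differentiableAt.differentiableWithinAt
  · rw [interior_Icc]
    intro z hz
    rw [(hd z hz).deriv]
    have hz0 := hz.1
    have hs : 0 < Real.sin z := Real.sin_pos_of_pos_of_lt_pi hz.1 (by linarith [hz.2])
    have := cot_lower hz.1.le hz.2.le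
    have e : Real.cos z / Real.sin z - 1 / z + z / 3 + z ^ 3 / 30
        = (z * Real.cos z - Real.sin z * (1 - z ^ 2 / 3 - z ^ 4 / 30)) / (z * Real.sin z) := by
      field_simp
      ring
    rw [e]
    exact div_nonneg this (by positivity)

/-- A2 -/
theorem Qf_upper (n : ℕ) (hn : 1 ≤ n) {θ : ℝ} (h0 : 0 ≤ θ) (h1 : 3 * n * θ < Real.pi) :
    0 ≤ Qf n θ ∧ Qf n θ ≤ Pr n 1 * Real.exp (-(S2 n / 24 * θ ^ 2)) := by
  have hP : 0 < Pr n 1 := Pr_pos n one_pos
  rw [Qf_eq_exp n h0 h1]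
  refine ⟨by positivity, ?_⟩
  refine mul_le_mul_of_nonneg_left (Real.exp_le_exp.2 ?_) hP.le
  have hD : 0 ≤ D n (fun i => Real.log (Real.sinc (i * θ / 2)) + θ ^ 2 / 24 * (i : ℝ) ^ 2) := by
    refine D_nonneg fun i j hi hij hj => ?_
    have hij' : (i : ℝ) ≤ j := by exact_mod_cast hij
    have hj' : (j : ℝ) ≤ 6 * n := by exact_mod_cast hj
    have q1 : (i : ℝ) * θ / 2 ≤ j * θ / 2 := by
      have := mul_le_mul_of_nonneg_right hij' h0; linarith
    have q2 : (j : ℝ) * θ / 2 < Real.pi := by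
      have := mul_le_mul_of_nonneg_right hj' h0; linarith
    have := logsinc_antitone (a := (i : ℝ) * θ / 2) (b := (j : ℝ) * θ / 2)
      ⟨by positivity, by linarith⟩ ⟨by positivity, q2⟩ q1
    simp only at this
    have e1 : ((i : ℝ) * θ / 2) ^ 2 / 6 = θ ^ 2 / 24 * (i : ℝ) ^ 2 := by ring
    have e2 : ((j : ℝ) * θ / 2) ^ 2 / 6 = θ ^ 2 / 24 * (j : ℝ) ^ 2 := by ring
    rw [e1, e2] at this
    exact this
  rw [D_add, D_mul, D_sq] at hD
  linarith

theorem Qf_lower (n : ℕ) (hn : 1 ≤ n) {θ : ℝ} (h0 : 0 ≤ θ) (h1 : 4 * n * θ ≤ 1) :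
    Pr n 1 * Real.exp (-(S2 n / 24 * θ ^ 2 + S4 n / 1920 * θ ^ 4)) ≤ Qf n θ := by
  have hP : 0 < Pr n 1 := Pr_pos n one_pos
  have hpi := Real.pi_gt_three
  have hnθ : 0 ≤ (n : ℝ) * θ := by positivity
  rw [Qf_eq_exp n h0 (by linarith)]
  refine mul_le_mul_of_nonneg_left (Real.exp_le_exp.2 ?_) hP.le
  have hD : 0 ≤ D n (fun i => -1 * (Real.log (Real.sinc (i * θ / 2)) + θ ^ 2 / 24 * (i : ℝ) ^ 2
      + θ ^ 4 / 1920 * (i : ℝ) ^ 4)) := by
    refine D_nonneg fun i j hi hij hj => ?_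
    have hij' : (i : ℝ) ≤ j := by exact_mod_cast hij
    have hj' : (j : ℝ) ≤ 6 * n := by exact_mod_cast hj
    have q1 : (i : ℝ) * θ / 2 ≤ j * θ / 2 := by
      have := mul_le_mul_of_nonneg_right hij' h0; linarith
    have q2 : (j : ℝ) * θ / 2 ≤ 3 / 4 := by
      have := mul_le_mul_of_nonneg_right hj' h0; linarith
    have := logsinc_monotone (a := (i : ℝ) * θ / 2) (b := (j : ℝ) * θ / 2)
      ⟨by positivity, by linarith⟩ ⟨by positivity, q2⟩ q1
    simp only at this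
    have e1 : ((i : ℝ) * θ / 2) ^ 2 / 6 = θ ^ 2 / 24 * (i : ℝ) ^ 2 := by ring
    have e2 : ((j : ℝ) * θ / 2) ^ 2 / 6 = θ ^ 2 / 24 * (j : ℝ) ^ 2 := by ring
    have e3 : ((i : ℝ) * θ / 2) ^ 4 / 120 = θ ^ 4 / 1920 * (i : ℝ) ^ 4 := by ring
    have e4 : ((j : ℝ) * θ / 2) ^ 4 / 120 = θ ^ 4 / 1920 * (j : ℝ) ^ 4 := by ring
    rw [e1, e2, e3, e4] at this
    linarith
  rw [D_mul, D_add, D_add, D_mul, D_mul, D_sq, D_four] at hD
  linarith

end C048
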